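import Mathlib
import Pool.Agent.Helper547.Alpha.Defs
import Pool.Agent.Helper547.Alpha.Upper
import Pool.Agent.Helper547.Alpha.Lower

set_option autoImplicit false

open Filter Topology

namespace Pool.Agent.Results.MP_b87acb_an.AlphaGrowth

open Pool.Agent.Helper547.Alpha

lemma bounds_linf (n : ℕ) : Real.sqrt (n / 2) ≤ alpha (Fin n → ℂ) ∧
    alpha (Fin n → ℂ) ≤ (Real.sqrt (2 * n) + 1) / 2 :=
  ⟨lower_linf n, alpha_le (ub_linf n)⟩

lemma bounds_l2 (n : ℕ) : (n : ℝ) / 2 ≤ alpha (EuclideanSpace ℂ (Fin n)) ∧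
    alpha (EuclideanSpace ℂ (Fin n)) ≤ ((n : ℝ) + 1) / 2 :=
  ⟨lower_l2 n, alpha_le (ub_l2 n)⟩

lemma tendsto_linf : Tendsto (fun n : ℕ => alpha (Fin n → ℂ) / (n : ℝ) ^ (1 / 2 : ℝ)) atTop
    (𝓝 (1 / Real.sqrt 2)) := by
  have h1 : Tendsto (fun n : ℕ => 1 / Real.sqrt 2 + (1 / 2) * (1 / Real.sqrt n)) atTop
      (𝓝 (1 / Real.sqrt 2 + (1 / 2) * 0)) := by
    apply Tendsto.const_add
    apply Tendsto.const_mul
    have h2 : Tendsto (fun n : ℕ => Real.sqrt (n : ℝ)) atTop atTop :=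
      Real.tendsto_sqrt_atTop.comp tendsto_natCast_atTop_atTop
    have h3 := h2.inv_tendsto_atTop
    refine h3.congr fun n => ?_
    simp
  rw [mul_zero, add_zero] at h1
  refine tendsto_of_tendsto_of_tendsto_of_le_of_le' (tendsto_const_nhds) h1 ?_ ?_
  · filter_upwards [eventually_gt_atTop 0] with n hn
    have hn' : (0 : ℝ) < n := by exact_mod_cast hn
    rw [← Real.sqrt_eq_rpow, le_div_iff₀ (Real.sqrt_pos.mpr hn')]
    refine le_trans (le_of_eq ?_) (bounds_linf n).1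
    rw [Real.sqrt_div hn'.le]
    ring
  · filter_upwards [eventually_gt_atTop 0] with n hn
    have hn' : (0 : ℝ) < n := by exact_mod_cast hn
    have hs := Real.sqrt_pos.mpr hn'
    rw [← Real.sqrt_eq_rpow, div_le_iff₀ hs]
    refine le_trans (bounds_linf n).2 (le_of_eq ?_)
    rw [Real.sqrt_mul (by norm_num)]
    have h3 : 1 / Real.sqrt 2 = Real.sqrt 2 / 2 := by
      rw [div_eq_div_iff (by positivity) (by norm_num)]
      rw [one_mul, Real.mul_self_sqrt (by norm_num)]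
    rw [h3]
    field_simp

lemma tendsto_l2 : Tendsto (fun n : ℕ => alpha (EuclideanSpace ℂ (Fin n)) / (n : ℝ)) atTop
    (𝓝 (1 / 2)) := by
  have h1 : Tendsto (fun n : ℕ => (1 / 2 : ℝ) + (1 / 2) * (1 / (n : ℝ))) atTop
      (𝓝 (1 / 2 + (1 / 2) * 0)) := by
    apply Tendsto.const_add
    apply Tendsto.const_mul
    exact tendsto_one_div_atTop_nhds_zero_nat
  rw [mul_zero, add_zero] at h1
  refine tendsto_of_tendsto_of_tendsto_of_le_of_le' (tendsto_const_nhds) h1 ?_ ?_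
  · filter_upwards [eventually_gt_atTop 0] with n hn
    have hn' : (0 : ℝ) < n := by exact_mod_cast hn
    rw [le_div_iff₀ hn']
    refine le_trans (le_of_eq ?_) (bounds_l2 n).1
    ring
  · filter_upwards [eventually_gt_atTop 0] with n hn
    have hn' : (0 : ℝ) < n := by exact_mod_cast hn
    rw [div_le_iff₀ hn']
    refine le_trans (bounds_l2 n).2 (le_of_eq ?_)
    field_simp

/-- `L_∞ = 1/√2` and `L_2 = 1/2`; in both cases the upper limit is a limit. For every `n` the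
explicit bounds `√(n/2) ≤ α(ℓ_∞ⁿ) ≤ (√(2n)+1)/2` and `n/2 ≤ α(ℓ_2ⁿ) ≤ (n+1)/2` hold. -/
theorem result :
    limsup (fun n : ℕ => alpha (Fin n → ℂ) / (n : ℝ) ^ (1 / 2 : ℝ)) atTop = 1 / Real.sqrt 2 ∧
    limsup (fun n : ℕ => alpha (EuclideanSpace ℂ (Fin n)) / (n : ℝ)) atTop = 1 / 2 ∧
    Tendsto (fun n : ℕ => alpha (Fin n → ℂ) / (n : ℝ) ^ (1 / 2 : ℝ)) atTop (𝓝 (1 / Real.sqrt 2)) ∧
    Tendsto (fun n : ℕ => alpha (EuclideanSpace ℂ (Fin n)) / (n : ℝ)) atTop (𝓝 (1 / 2)) ∧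
    (∀ n : ℕ, Real.sqrt (n / 2) ≤ alpha (Fin n → ℂ) ∧
      alpha (Fin n → ℂ) ≤ (Real.sqrt (2 * n) + 1) / 2) ∧
    (∀ n : ℕ, (n : ℝ) / 2 ≤ alpha (EuclideanSpace ℂ (Fin n)) ∧
      alpha (EuclideanSpace ℂ (Fin n)) ≤ ((n : ℝ) + 1) / 2) :=
  ⟨tendsto_linf.limsup_eq, tendsto_l2.limsup_eq, tendsto_linf, tendsto_l2, bounds_linf, bounds_l2⟩

end Pool.Agent.Results.MP_b87acb_an.AlphaGrowth
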